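import Pool.Agent.Lib.P68998e.Fan

/-!
Doubling: if all lifts of the points of `P` modulo `e` are in `E` and `P` has a fan minor with
`a + 1` spokes then `E` has a wheel minor with `a + 2` spokes. Density of configurations without a
wheel minor with `a + 2` spokes.
-/

namespace Pool.Agent.Lib.P68998e

open Submodule Finset Pool.Agent.Lib.P68998c

universe u

section

variable {V : Type u} [AddCommGroup V] [Module (ZMod 2) V]

lemma wheel_of_double {a : ℕ} {E : Set V} {e : V} (he : e ∈ E) (he0 : e ≠ 0)
    {P : Set (V ⧸ span (ZMod 2) {e})}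
    (hP : ∀ p ∈ P, ∀ v, (span (ZMod 2) {e}).mkQ v = p → v ∈ E) (h : HasFan a P) :
    HasWheel (a + 1) E := by
  classical
  obtain ⟨C, z, x, hC, hz, hx, ⟨φ, hφC, hφz⟩, hs⟩ := h
  set π := (span (ZMod 2) {e}).mkQ with hπ
  obtain ⟨s, hsπ⟩ := LinearMap.exists_rightInverse_of_surjective π (range_mkQ _)
  have hs' : ∀ w, π (s w) = w := fun w => congrArg (fun f => f w) hsπ
  have hπe : π e = 0 := by
    rw [hπ, mkQ_apply, Quotient.mk_eq_zero]; exact mem_span_singleton_self e
  have hg : ∃ g : V →ₗ[ZMod 2] ZMod 2, g e = 1 := by
    by_contra hcon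
    push Not at hcon
    apply he0
    rw [← Module.forall_dual_apply_eq_zero_iff (ZMod 2)]
    intro f
    have hz : ∀ c : ZMod 2, c = 0 ∨ c = 1 := by decide
    rcases hz (f e) with h | h
    · exact h
    · exact absurd h (hcon f)
  obtain ⟨g0, hg0⟩ := hg
  set g : V →ₗ[ZMod 2] ZMod 2 := g0 + (g0.comp s).comp π with hgdef
  have hge : g e = 1 := by
    rw [hgdef, LinearMap.add_apply, LinearMap.comp_apply, hπe, map_zero, hg0, add_zero]
  have hgs : ∀ w, g (s w) = 0 := by
    intro w
    rw [hgdef, LinearMap.add_apply, LinearMap.comp_apply, hs', LinearMap.comp_apply]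
    exact ZModModule.add_self _
  have hzE : ∀ i ≤ a, s (z i) ∈ E := fun i hi => hP _ (hz i hi) _ (hs' _)
  have hval : ∀ i : Fin (a + 1 + 1), (i : ℕ) < a + 1 → ((i + 1 : Fin (a + 1 + 1)) : ℕ) = i + 1 := by
    intro i hi
    rw [Fin.val_add_one_of_lt]
    rw [Fin.lt_def]; simpa using hi
  refine ⟨s '' C, fun i => if (i : ℕ) ≤ a then s (z i) else e,
    fun i => if (i : ℕ) < a then s (x i) else if (i : ℕ) = a then s (z a) + e else e + s (z 0),
    ?_, ?_, ?_, ⟨LinearMap.pi fun i => if h : (i : ℕ) < a + 1 then
      (LinearMap.proj (⟨i, h⟩ : Fin (a + 1))).comp (φ.comp π) else g, ?_, ?_⟩, ?_⟩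
  · rintro _ ⟨c, hc, rfl⟩
    exact hP _ (hC hc) _ (hs' _)
  · intro i
    by_cases hi : (i : ℕ) ≤ a
    · simp only [if_pos hi]; exact hzE _ hi
    · simp only [if_neg hi]; exact he
  · intro i
    by_cases hi : (i : ℕ) < a
    · simp only [if_pos hi]; exact hP _ (hx _ hi) _ (hs' _)
    · by_cases hi' : (i : ℕ) = a
      · simp only [if_neg hi, if_pos hi']
        refine hP _ (hz a le_rfl) _ ?_
        rw [map_add, hπe, hs', add_zero]
      · simp only [if_neg hi, if_neg hi']
        refine hP _ (hz 0 (by omega)) _ ?_
        rw [map_add, hπe, hs', zero_add]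
  · rintro _ ⟨c, hc, rfl⟩
    funext i
    rw [LinearMap.pi_apply]
    by_cases h : (i : ℕ) < a + 1
    · rw [dif_pos h, LinearMap.comp_apply, LinearMap.comp_apply, hs', hφC c hc]
      rfl
    · rw [dif_neg h, hgs]
      rfl
  · intro i
    funext j
    rw [LinearMap.pi_apply]
    by_cases hi : (i : ℕ) ≤ a
    · simp only [if_pos hi]
      by_cases h : (j : ℕ) < a + 1
      · rw [dif_pos h, LinearMap.comp_apply, LinearMap.comp_apply, hs']
        have h1 := hφz ⟨i, by omega⟩
        simp only at h1
        rw [h1, LinearMap.proj_apply]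
        by_cases hij : i = j
        · subst hij; simp
        · rw [Pi.single_eq_of_ne (Ne.symm hij), Pi.single_eq_of_ne]
          intro h2
          exact hij (Fin.ext (congrArg Fin.val h2).symm)
      · rw [dif_neg h, hgs, Pi.single_eq_of_ne]
        intro h2
        rw [h2] at h
        omega
    · simp only [if_neg hi]
      have hi' : (i : ℕ) = a + 1 := by omega
      by_cases h : (j : ℕ) < a + 1
      · rw [dif_pos h, LinearMap.comp_apply, LinearMap.comp_apply, hπe, map_zero, map_zero,
          Pi.single_eq_of_ne]
        intro h2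
        rw [h2] at h
        omega
      · rw [dif_neg h, hge]
        have hij : j = i := Fin.ext (by omega)
        rw [hij, Pi.single_eq_same]
  · intro i
    by_cases hi : (i : ℕ) < a
    · have h1 := hval i (by omega)
      simp only [if_pos hi, if_pos hi.le, h1, if_pos (show (i : ℕ) + 1 ≤ a by omega)]
      rw [← map_add, ← map_add]
      have h2 : span (ZMod 2) C ≤ (span (ZMod 2) (s '' C)).comap s := by
        rw [span_le]
        intro c hc
        exact subset_span ⟨c, hc, rfl⟩
      exact h2 (hs i hi)
    · by_cases hi' : (i : ℕ) = a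
      · have h1 := hval i (by omega)
        simp only [if_neg hi, if_pos hi', if_pos hi'.le, h1,
          if_neg (show ¬ ((i : ℕ) + 1 ≤ a) by omega)]
        rw [hi']
        have h2 : s (z a) + e + s (z a) + e = (s (z a) + s (z a)) + (e + e) := by abel
        rw [h2, ZModModule.add_self, ZModModule.add_self, add_zero]
        exact zero_mem _
      · have hi0 : i + 1 = 0 := by
          have : i = Fin.last (a + 1) := Fin.ext (by rw [Fin.val_last]; omega)
          rw [this]; simp
        simp only [if_neg hi, if_neg hi', if_neg (show ¬ ((i : ℕ) ≤ a) by omega), hi0,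
          Fin.val_zero, if_pos (Nat.zero_le a)]
        have h2 : e + s (z 0) + e + s (z 0) = (s (z 0) + s (z 0)) + (e + e) := by abel
        rw [h2, ZModModule.add_self, ZModModule.add_self, add_zero]
        exact zero_mem _

end

/-- A set of nonzero binary vectors of rank at most `n` with no wheel minor with `a + 2` spokes
has at most `(a * 2 ^ a + 1) * n` elements. -/
theorem density (a n : ℕ) (ha : 1 ≤ a) : ∀ (V : Type u) [AddCommGroup V] [Module (ZMod 2) V]
    [FiniteDimensional (ZMod 2) V] (E : Finset V), (0 : V) ∉ E →
    ¬ HasWheel (a + 1) (E : Set V) →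
    Module.finrank (ZMod 2) (span (ZMod 2) (E : Set V)) ≤ n → E.card ≤ (a * 2 ^ a + 1) * n := by
  classical
  induction n with
  | zero =>
    intro V _ _ _ E h0 hW hr
    have h1 : span (ZMod 2) (E : Set V) = ⊥ := by
      rw [← Submodule.finrank_eq_zero (R := ZMod 2)]; omega
    rw [span_eq_bot] at h1
    have h2 : E = ∅ := by
      rw [Finset.eq_empty_iff_forall_notMem]
      intro v hv
      exact h0 (h1 v hv ▸ hv)
    simp [h2]
  | succ n ih =>
    intro V _ _ _ E h0 hW hr
    rcases E.eq_empty_or_nonempty with rfl | ⟨e₀, he₀⟩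
    · simp
    obtain ⟨k, y, hy, hmax⟩ := exists_longest (E := (E : Set V)) he₀ (by simpa using h0)
    set e := y 0 with he
    have heE : e ∈ E := by simpa using hy.1 0 (by omega)
    have hen : e ≠ 0 := fun h => h0 (h ▸ heE)
    set π := (span (ZMod 2) {e}).mkQ with hπ
    have hπe : π e = 0 := by
      rw [hπ, mkQ_apply, Quotient.mk_eq_zero]; exact mem_span_singleton_self e
    set E' : Finset (V ⧸ span (ZMod 2) {e}) := (E.image π).erase 0 with hE'
    have hsub : (E' : Set (V ⧸ span (ZMod 2) {e})) ⊆ π '' (E : Set V) := by
      rw [hE', ← Finset.coe_image]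
      exact Finset.coe_subset.2 (Finset.erase_subset _ _)
    have hW' : ¬ HasWheel (a + 1) (E' : Set (V ⧸ span (ZMod 2) {e})) := fun h =>
      hW (hasWheel_of_quotient (by simpa using heE) hsub h)
    have hr' : Module.finrank (ZMod 2) (span (ZMod 2) (E' : Set (V ⧸ span (ZMod 2) {e}))) ≤ n := by
      have h1 := finrank_map_lt (p := span (ZMod 2) (E : Set V)) (e := e)
        (subset_span (by simpa using heE)) hen
      have h2 : span (ZMod 2) (E' : Set (V ⧸ span (ZMod 2) {e})) ≤
          (span (ZMod 2) (E : Set V)).map π := by
        rw [Submodule.map_span]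
        exact span_mono hsub
      have h3 := Submodule.finrank_mono h2
      rw [← hπ] at h1
      omega
    have hE'card := ih _ E' (Finset.notMem_erase _ _) hW' hr'
    -- two vectors with the same image
    have hfib : ∀ b b', π b = π b' → b' ≠ b → b' = b + e := by
      intro b b' hbb hne
      have h1 : b + b' ∈ span (ZMod 2) {e} := by
        rw [← ZModModule.sub_eq_add, ← Quotient.mk_eq_zero, ← mkQ_apply, map_sub, sub_eq_zero]
        exact hbb
      rw [mem_span_singleton] at h1
      obtain ⟨c, hc⟩ := h1
      have hz : c = 0 ∨ c = 1 := (by decide : ∀ c : ZMod 2, c = 0 ∨ c = 1) c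
      rcases hz with rfl | rfl
      · exfalso
        rw [zero_smul] at hc
        apply hne
        have : b + b' + b' = b' := by rw [← hc, zero_add]
        rw [add_assoc, ZModModule.add_self, add_zero] at this
        exact this.symm
      · rw [one_smul] at hc
        rw [hc, ← add_assoc, ZModModule.add_self, zero_add]
    set P : Finset (V ⧸ span (ZMod 2) {e}) := E'.filter fun p => ∀ v, π v = p → v ∈ E with hPdef
    have hPmem : ∀ p ∈ P, ∀ v, π v = p → v ∈ (E : Set V) := by
      intro p hp v hv
      exact Finset.mem_coe.2 ((Finset.mem_filter.1 hp).2 v hv)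
    have hPfan : ¬ HasFan a (P : Set (V ⧸ span (ZMod 2) {e})) := fun h =>
      hW (wheel_of_double (by simpa using heE) hen
        (fun p hp v hv => hPmem p (by simpa using hp) v hv) h)
    have hPrank : Module.finrank (ZMod 2) (span (ZMod 2) (P : Set (V ⧸ span (ZMod 2) {e}))) ≤
        2 * a := by
      set G : Finset (V ⧸ span (ZMod 2) {e}) :=
        (range (2 * a)).image fun q => π (y q + y (q + 1)) with hG
      have h1 : span (ZMod 2) (P : Set (V ⧸ span (ZMod 2) {e})) ≤
          span (ZMod 2) (G : Set (V ⧸ span (ZMod 2) {e})) := by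
        rw [span_le]
        intro p hp
        rw [Finset.mem_coe] at hp
        obtain ⟨b, rfl⟩ := mkQ_surjective _ p
        have hb : b ∈ (E : Set V) := hPmem _ hp b rfl
        have hbe : b + e ∈ (E : Set V) := by
          refine hPmem _ hp (b + e) ?_
          rw [map_add, hπe, add_zero]
        have h2 := longest_spec hy hmax hb hbe
        obtain ⟨T, hT, hT' | hT'⟩ := mem_span_path h2
        · have hA := adm_of_triangle hW hy hT (by rw [← hT']; exact hb)
            (by rw [← hT']; exact hbe)
          rw [hT', map_sum]
          refine sum_mem fun q hq => subset_span ?_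
          rw [Finset.mem_coe, hG, Finset.mem_image]
          rw [Adm, Finset.mem_filter, Finset.mem_powerset] at hA
          exact ⟨q, hA.1 hq, rfl⟩
        · have h3 : b + e = ∑ q ∈ T, (y q + y (q + 1)) := by
            rw [hT', ← he, add_assoc, ZModModule.add_self, add_zero]
          have hA := adm_of_triangle hW hy hT (by rw [← h3]; exact hbe)
            (by rw [← hT']; exact hb)
          have h4 : (span (ZMod 2) {e}).mkQ b = π (b + e) := by rw [map_add, hπe, add_zero]
          rw [h4, h3, map_sum]
          refine sum_mem fun q hq => subset_span ?_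
          rw [Finset.mem_coe, hG, Finset.mem_image]
          rw [Adm, Finset.mem_filter, Finset.mem_powerset] at hA
          exact ⟨q, hA.1 hq, rfl⟩
      have h2 := Submodule.finrank_mono h1
      have h3 := finrank_span_finset_le_card (R := ZMod 2) G
      have h4 : G.card ≤ 2 * a := by
        have := Finset.card_image_le (s := range (2 * a)) (f := fun q => π (y q + y (q + 1)))
        rwa [Finset.card_range] at this
      exact h2.trans (h3.trans h4)
    have hPcard : P.card ≤ a * 2 ^ a := by
      have h1 := fan_density a (2 * a) ha _ P (by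
        intro h
        exact Finset.notMem_erase (0 : V ⧸ span (ZMod 2) {e}) _ (Finset.mem_filter.1 h).1)
        hPfan hPrank
      have h2 : 2 ^ (a - 1) * (2 * a) = a * 2 ^ a := by
        obtain ⟨b, rfl⟩ : ∃ b, a = b + 1 := ⟨a - 1, by omega⟩
        rw [Nat.add_sub_cancel, pow_succ]; ring
      omega
    have hcard : (E.erase e).card ≤ E'.card + P.card := by
      have h1 : (E.erase e).card = ∑ p ∈ E', ((E.erase e).filter fun v => π v = p).card := by
        refine Finset.card_eq_sum_card_fiberwise ?_
        intro v hv
        rw [Finset.mem_coe, Finset.mem_erase] at hv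
        rw [Finset.mem_coe, hE', Finset.mem_erase]
        refine ⟨?_, Finset.mem_image_of_mem _ hv.2⟩
        intro h2
        rcases eq_or_ne v 0 with h3 | h3
        · exact h0 (h3 ▸ hv.2)
        · have h4 := hfib 0 v (by rw [map_zero, h2]) h3
          rw [zero_add] at h4
          exact hv.1 h4
      have h2 : ∀ p ∈ E', ((E.erase e).filter fun v => π v = p).card ≤
          1 + if p ∈ P then 1 else 0 := by
        intro p hp
        by_cases hpP : p ∈ P
        · rw [if_pos hpP]
          rw [hE', Finset.mem_erase, Finset.mem_image] at hp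
          obtain ⟨hp0, b, hb, rfl⟩ := hp
          have h3 : ((E.erase e).filter fun v => π v = π b) ⊆ {b, b + e} := by
            intro v hv
            rw [Finset.mem_filter] at hv
            rw [Finset.mem_insert, Finset.mem_singleton]
            by_cases h4 : v = b
            · exact Or.inl h4
            · exact Or.inr (hfib b v hv.2.symm h4)
          exact (Finset.card_le_card h3).trans Finset.card_le_two
        · rw [if_neg hpP, add_zero, Finset.card_le_one]
          intro b hb b' hb'
          by_contra hne
          rw [Finset.mem_filter, Finset.mem_erase] at hb hb'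
          apply hpP
          rw [hPdef, Finset.mem_filter]
          refine ⟨hp, ?_⟩
          intro v hv
          have h4 := hfib b b' (by rw [hb.2, hb'.2]) (Ne.symm hne)
          by_cases h5 : v = b
          · rw [h5]; exact hb.1.2
          · have h6 := hfib b v (by rw [hb.2, hv]) h5
            rw [h6, ← h4]
            exact hb'.1.2
      rw [h1]
      refine (Finset.sum_le_sum h2).trans ?_
      rw [Finset.sum_add_distrib, Finset.sum_const, smul_eq_mul, mul_one, Finset.sum_ite_mem,
        Finset.sum_const, smul_eq_mul, mul_one]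
      exact Nat.add_le_add_left (Finset.card_le_card Finset.inter_subset_right) _
    have h5 : E.card = (E.erase e).card + 1 := by
      rw [Finset.card_erase_of_mem heE]
      have := Finset.card_pos.2 ⟨e, heE⟩
      omega
    calc E.card = (E.erase e).card + 1 := h5
      _ ≤ (a * 2 ^ a + 1) * n + a * 2 ^ a + 1 := by omega
      _ = _ := by ring

end Pool.Agent.Lib.P68998e
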