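import Pool.Agent.Lib.P68998c.Path

/-!
Fan minors of binary vector configurations: a configuration with no fan minor with `m + 1` spokes
has at most `2 ^ (m - 1) * rank` elements.
-/

namespace Pool.Agent.Lib.P68998e

open Submodule Finset Pool.Agent.Lib.P68998c

universe u

section

variable {V : Type u} [AddCommGroup V] [Module (ZMod 2) V]

/-- The set of vectors `E` has a fan minor with `m + 1` spokes: after contracting `C ⊆ E` the
spokes `z i` (`i ≤ m`) are linearly independent, and the rim elements are `x i = z i + z (i + 1)`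
(`i < m`). -/
def HasFan (m : ℕ) (E : Set V) : Prop :=
  ∃ (C : Set V) (z x : ℕ → V), C ⊆ E ∧ (∀ i ≤ m, z i ∈ E) ∧ (∀ i < m, x i ∈ E) ∧
    (∃ φ : V →ₗ[ZMod 2] (Fin (m + 1) → ZMod 2), (∀ c ∈ C, φ c = 0) ∧
      ∀ i : Fin (m + 1), φ (z i) = Pi.single i 1) ∧
    ∀ i < m, x i + z i + z (i + 1) ∈ span (ZMod 2) C

/-- A fan path (see `FanPath`) of length at least `m` is a fan minor with `C = ∅`. -/
lemma fan_of_path {m k : ℕ} {E : Set V} {y : ℕ → V} (hy : FanPath E y k) (hmk : m ≤ k) :
    HasFan m E := by
  classical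
  obtain ⟨φ, hφ⟩ := exists_map hy.2.2
    (fun p => if h : p < m + 1 then (Pi.single (⟨p, h⟩ : Fin (m + 1)) 1 : Fin (m + 1) → ZMod 2)
      else 0)
  refine ⟨∅, y, fun i => y i + y (i + 1), Set.empty_subset _, fun i hi => hy.1 i (by omega),
    fun i hi => hy.2.1 i (by omega), ⟨φ, by simp, fun i => ?_⟩, fun i hi => ?_⟩
  · rw [hφ _ (by omega), dif_pos i.2]
  · have e : y i + y (i + 1) + y i + y (i + 1) = (y i + y i) + (y (i + 1) + y (i + 1)) := by abel
    rw [e, ZModModule.add_self, ZModModule.add_self, add_zero]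
    exact zero_mem _

/-- As `hasWheel_of_quotient`. -/
lemma hasFan_of_quotient {m : ℕ} {E : Set V} {e : V} (he : e ∈ E)
    {E' : Set (V ⧸ span (ZMod 2) {e})}
    (hE' : E' ⊆ (span (ZMod 2) {e}).mkQ '' E) (h : HasFan m E') : HasFan m E := by
  obtain ⟨C, z, x, hC, hz, hx, ⟨φ, hφC, hφz⟩, hs⟩ := h
  have hlz : ∀ i ≤ m, ∃ v ∈ E, (span (ZMod 2) {e}).mkQ v = z i := fun i hi => hE' (hz i hi)
  have hlx : ∀ i < m, ∃ v ∈ E, (span (ZMod 2) {e}).mkQ v = x i := fun i hi => hE' (hx i hi)
  choose! z' hz'E hz' using hlz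
  choose! x' hx'E hx' using hlx
  refine ⟨insert e {v | v ∈ E ∧ (span (ZMod 2) {e}).mkQ v ∈ C}, z', x', ?_, hz'E, hx'E,
    ⟨φ.comp (span (ZMod 2) {e}).mkQ, ?_, ?_⟩, ?_⟩
  · rintro v (rfl | hv)
    · exact he
    · exact hv.1
  · rintro v (rfl | hv)
    · rw [LinearMap.comp_apply]
      have : (span (ZMod 2) {v}).mkQ v = 0 := by
        rw [mkQ_apply, Quotient.mk_eq_zero]; exact mem_span_singleton_self v
      rw [this, map_zero]
    · exact hφC _ hv.2
  · intro i
    rw [LinearMap.comp_apply, hz' _ (by omega), hφz]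
  · intro i hi
    have h1 : (span (ZMod 2) {e}).mkQ (x' i + z' i + z' (i + 1)) ∈ span (ZMod 2) C := by
      rw [map_add, map_add, hx' i hi, hz' i hi.le, hz' (i + 1) (by omega)]
      exact hs i hi
    have h2 : span (ZMod 2) C ≤ (span (ZMod 2) {v | v ∈ E ∧ (span (ZMod 2) {e}).mkQ v ∈ C}).map
        (span (ZMod 2) {e}).mkQ := by
      rw [span_le]
      intro c hc
      obtain ⟨v, hvE, rfl⟩ := hE' (hC hc)
      exact ⟨v, subset_span ⟨hvE, hc⟩, rfl⟩
    obtain ⟨w, hw, hw'⟩ := h2 h1
    have h3 : x' i + z' i + z' (i + 1) - w ∈ span (ZMod 2) {e} := by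
      rw [← Quotient.mk_eq_zero, ← mkQ_apply, map_sub, hw', sub_self]
    have h4 := add_mem (span_mono (Set.subset_insert e _) hw :
      w ∈ span (ZMod 2) (insert e {v | v ∈ E ∧ (span (ZMod 2) {e}).mkQ v ∈ C}))
      (span_mono (Set.singleton_subset_iff.2 (Set.mem_insert e _)) h3 :
      _ ∈ span (ZMod 2) (insert e {v | v ∈ E ∧ (span (ZMod 2) {e}).mkQ v ∈ C}))
    convert h4 using 1
    abel

end

/-- As `density`; the longest fan path has `k < m`, so `T ⊆ range k` gives at most `2 ^ (m - 1)`
sets `T` (instead of `Adm a`). -/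
theorem fan_density (m n : ℕ) (hm : 1 ≤ m) : ∀ (V : Type u) [AddCommGroup V] [Module (ZMod 2) V]
    [FiniteDimensional (ZMod 2) V] (E : Finset V), (0 : V) ∉ E →
    ¬ HasFan m (E : Set V) →
    Module.finrank (ZMod 2) (span (ZMod 2) (E : Set V)) ≤ n → E.card ≤ 2 ^ (m - 1) * n := by
  classical
  induction n with
  | zero =>
    intro V _ _ _ E h0 hW hr
    have h1 : span (ZMod 2) (E : Set V) = ⊥ := by
      rw [← Submodule.finrank_eq_zero (R := ZMod 2)]; omega
    rw [span_eq_bot] at h1
    have h2 : E = ∅ := by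
      rw [Finset.eq_empty_iff_forall_notMem]
      intro v hv
      exact h0 (h1 v hv ▸ hv)
    simp [h2]
  | succ n ih =>
    intro V _ _ _ E h0 hW hr
    rcases E.eq_empty_or_nonempty with rfl | ⟨e₀, he₀⟩
    · simp
    obtain ⟨k, y, hy, hmax⟩ := exists_longest (E := (E : Set V)) he₀ (by simpa using h0)
    have hkm : k ≤ m - 1 := by
      by_contra hcon
      exact hW (fan_of_path hy (by omega))
    set e := y 0 with he
    have heE : e ∈ E := by simpa using hy.1 0 (by omega)
    have hen : e ≠ 0 := fun h => h0 (h ▸ heE)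
    set π := (span (ZMod 2) {e}).mkQ with hπ
    set E' : Finset (V ⧸ span (ZMod 2) {e}) := (E.image π).erase 0 with hE'
    have hsub : (E' : Set (V ⧸ span (ZMod 2) {e})) ⊆ π '' (E : Set V) := by
      rw [hE', ← Finset.coe_image]
      exact Finset.coe_subset.2 (Finset.erase_subset _ _)
    have hW' : ¬ HasFan m (E' : Set (V ⧸ span (ZMod 2) {e})) := fun h =>
      hW (hasFan_of_quotient (by simpa using heE) hsub h)
    have hr' : Module.finrank (ZMod 2) (span (ZMod 2) (E' : Set (V ⧸ span (ZMod 2) {e}))) ≤ n := by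
      have h1 := finrank_map_lt (p := span (ZMod 2) (E : Set V)) (e := e)
        (subset_span (by simpa using heE)) hen
      have h2 : span (ZMod 2) (E' : Set (V ⧸ span (ZMod 2) {e})) ≤
          (span (ZMod 2) (E : Set V)).map π := by
        rw [Submodule.map_span]
        exact span_mono hsub
      have h3 := Submodule.finrank_mono h2
      rw [← hπ] at h1
      omega
    have hE'card := ih _ E' (Finset.notMem_erase _ _) hW' hr'
    set D : Finset V :=
      ((range k).powerset.image fun T => ∑ q ∈ T, (y q + y (q + 1))).erase 0 with hD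
    have hDcard : D.card + 1 ≤ 2 ^ (m - 1) := by
      have h1 : (0 : V) ∈ (range k).powerset.image fun T => ∑ q ∈ T, (y q + y (q + 1)) := by
        rw [Finset.mem_image]
        exact ⟨∅, by simp, by simp⟩
      rw [hD, Finset.card_erase_of_mem h1]
      have h2 : 0 < ((range k).powerset.image fun T => ∑ q ∈ T, (y q + y (q + 1))).card :=
        Finset.card_pos.2 ⟨_, h1⟩
      have h3 := Finset.card_image_le (s := (range k).powerset)
        (f := fun T => ∑ q ∈ T, (y q + y (q + 1)))
      rw [Finset.card_powerset, Finset.card_range] at h3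
      have h4 : 2 ^ k ≤ 2 ^ (m - 1) := Nat.pow_le_pow_right (by norm_num) hkm
      omega
    have hinj : (E \ insert e D).card ≤ E'.card := by
      refine Finset.card_le_card_of_injOn π ?_ ?_
      · intro b hb
        rw [Finset.mem_coe, Finset.mem_sdiff, Finset.mem_insert, not_or] at hb
        rw [Finset.mem_coe, hE', Finset.mem_erase]
        refine ⟨?_, Finset.mem_image_of_mem _ hb.1⟩
        rw [hπ, mkQ_apply, Ne, Quotient.mk_eq_zero, mem_span_singleton]
        rintro ⟨c, hc⟩
        have hz : c = 0 ∨ c = 1 := (by decide : ∀ c : ZMod 2, c = 0 ∨ c = 1) c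
        rcases hz with rfl | rfl
        · rw [zero_smul] at hc
          exact h0 (hc ▸ hb.1)
        · rw [one_smul] at hc
          exact hb.2.1 hc.symm
      · intro b hb b' hb' hbb
        by_contra hne
        rw [Finset.mem_coe, Finset.mem_sdiff, Finset.mem_insert, not_or] at hb hb'
        have h1 : b + b' ∈ span (ZMod 2) {e} := by
          rw [← ZModModule.sub_eq_add, ← Quotient.mk_eq_zero, ← mkQ_apply, map_sub,
            sub_eq_zero]
          exact hbb
        rw [mem_span_singleton] at h1
        obtain ⟨c, hc⟩ := h1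
        have hz : c = 0 ∨ c = 1 := (by decide : ∀ c : ZMod 2, c = 0 ∨ c = 1) c
        have hb2 : b' = b + e := by
          rcases hz with rfl | rfl
          · exfalso
            rw [zero_smul] at hc
            apply hne
            have : b + b' + b' = b' := by rw [← hc, zero_add]
            rw [add_assoc, ZModModule.add_self, add_zero] at this
            exact this
          · rw [one_smul] at hc
            rw [hc, ← add_assoc, ZModModule.add_self, zero_add]
        have h2 := longest_spec hy hmax (b := b) (by simpa using hb.1)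
          (by rw [← he, ← hb2]; simpa using hb'.1)
        obtain ⟨T, hT, hT' | hT'⟩ := mem_span_path h2
        · apply hb.2.2
          rw [hD, Finset.mem_erase]
          exact ⟨fun h => h0 (h ▸ hb.1), Finset.mem_image.2
            ⟨T, Finset.mem_powerset.2 hT, hT'.symm⟩⟩
        · have h3 : b' = ∑ q ∈ T, (y q + y (q + 1)) := by
            rw [hb2, hT', ← he, add_assoc, ZModModule.add_self, add_zero]
          apply hb'.2.2
          rw [hD, Finset.mem_erase]
          exact ⟨fun h => h0 (h ▸ hb'.1), Finset.mem_image.2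
            ⟨T, Finset.mem_powerset.2 hT, h3.symm⟩⟩
    have h5 : E.card ≤ (E \ insert e D).card + (insert e D).card := by
      exact Finset.card_le_card_sdiff_add_card
    have h6 := Finset.card_insert_le e D
    calc E.card ≤ (E \ insert e D).card + (insert e D).card := h5
      _ ≤ E'.card + 2 ^ (m - 1) := by omega
      _ ≤ 2 ^ (m - 1) * n + 2 ^ (m - 1) := by omega
      _ = _ := by ring

end Pool.Agent.Lib.P68998e
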