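import Pool.Agent.Lib.P68998d.Small
import Pool.Agent.Lib.P68998d.Greedy
import Pool.Agent.Lib.P68998e.Double

/-!
A binary configuration without a wheel minor has a small cocycle: the density bound
`a * 2 ^ a + 1` in place of `choose (2 a + 1) a`.
-/

namespace Pool.Agent.Lib.P68998e

open Finset Pool.Agent.Lib.P68998c
open Pool.Agent.Lib.P68998d (dual_wheel dv dv_mem dv_notMem exists_basis_data zmod_cases shattered
  arith packing)

section

variable {n : ℕ}

lemma growth {a : ℕ} (ha : 1 ≤ a) {X A B : Finset (Fin n → ZMod 2)}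
    (hW : ¬ HasWheel (a + 1) (X : Set (Fin n → ZMod 2))) (hAX : A ⊆ X) (hBX : B ⊆ X)
    (hBA : Disjoint B A) {β : (Fin n → ZMod 2) → (Fin n → ZMod 2) →ₗ[ZMod 2] ZMod 2}
    (hβ : ∀ b ∈ B, ∀ b' ∈ B, β b b' = if b = b' then 1 else 0)
    (hA : ∀ x ∈ A, x = ∑ b ∈ B, β b x • b) :
    (B.image (dv A β)).card ≤ (a * 2 ^ a + 1) * A.card + 1 := by
  classical
  set E' : Finset (A → ZMod 2) := ((B ∪ A).image (dv A β)).erase 0 with hE'
  have hnoW : ¬ HasWheel (a + 1) (E' : Set (A → ZMod 2)) := by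
    intro h
    have h1 : HasWheel (a + 1) (dv A β '' ((B ∪ A : Finset (Fin n → ZMod 2)) :
        Set (Fin n → ZMod 2))) := by
      refine h.mono ?_
      rw [← Finset.coe_image]
      exact Finset.coe_subset.2 (Finset.erase_subset _ _)
    exact hW ((dual_wheel (by omega) hBA hβ hA h1).mono
      (Finset.coe_subset.2 (Finset.union_subset hBX hAX)))
  have h1 := density a A.card ha (A → ZMod 2) E' (Finset.notMem_erase _ _) hnoW (by
    refine (Submodule.finrank_le _).trans ?_
    rw [Module.finrank_fintype_fun_eq_card, Fintype.card_coe])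
  have h2 : B.image (dv A β) ⊆ insert 0 E' := by
    intro u hu
    rw [Finset.mem_insert, hE', Finset.mem_erase]
    by_cases h0 : u = 0
    · exact Or.inl h0
    · exact Or.inr ⟨h0, Finset.image_subset_image Finset.subset_union_left hu⟩
  have h3 := Finset.card_le_card h2
  have h4 := Finset.card_insert_le (0 : A → ZMod 2) E'
  omega

lemma traces {a : ℕ} (ha : 1 ≤ a) {X A B N : Finset (Fin n → ZMod 2)}
    (hW : ¬ HasWheel (a + 1) (X : Set (Fin n → ZMod 2))) (hNX : N ⊆ X) (hBX : B ⊆ X)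
    (hBN : Disjoint B N) (hAN : A ⊆ N)
    {β : (Fin n → ZMod 2) → (Fin n → ZMod 2) →ₗ[ZMod 2] ZMod 2}
    (hβ : ∀ b ∈ B, ∀ b' ∈ B, β b b' = if b = b' then 1 else 0)
    (hX : ∀ x ∈ X, x = ∑ b ∈ B, β b x • b) :
    (B.image fun b => (N.filter fun x => β b x = 1) ∩ A).card ≤
      (a * 2 ^ a + 1) * A.card + 1 := by
  classical
  have hBA : Disjoint B A := hBN.mono_right hAN
  refine le_trans ?_ (growth ha hW (hAN.trans hNX) hBX hBA hβ
    (fun x hx => hX x (hNX (hAN hx))))
  have h1 : (B.image fun b => (N.filter fun x => β b x = 1) ∩ A) =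
      (B.image (dv A β)).image fun u => A.filter fun x => ∃ h : x ∈ A, u ⟨x, h⟩ = 1 := by
    rw [Finset.image_image]
    refine Finset.image_congr ?_
    intro b hb
    ext x
    simp only [Finset.mem_inter, Finset.mem_filter, Function.comp_apply]
    constructor
    · intro h
      have h2 := h.1.2
      have h3 := h.2
      exact ⟨h3, h3, by rw [dv_notMem (Finset.disjoint_left.1 hBA hb)]; exact h2⟩
    · intro h
      obtain ⟨h3, h4, h2⟩ := h
      rw [dv_notMem (Finset.disjoint_left.1 hBA hb)] at h2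
      exact ⟨⟨hAN h3, h2⟩, h3⟩
  rw [h1]
  exact Finset.card_image_le

/-- A nonempty binary configuration of nonzero vectors without a wheel minor with `a + 2` spokes
has a nonempty cocycle with at most `8 t ^ 2 (a + 1) + 2` elements, `t = a 2 ^ a + 1`. -/
theorem small_cocircuit (a : ℕ) (ha : 1 ≤ a) (X : Finset (Fin n → ZMod 2))
    (h0 : (0 : Fin n → ZMod 2) ∉ X) (hX : X.Nonempty)
    (hW : ¬ HasWheel (a + 1) (X : Set (Fin n → ZMod 2))) :
    ∃ f : (Fin n → ZMod 2) →ₗ[ZMod 2] ZMod 2, (X.filter fun x => f x = 1).Nonempty ∧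
      (X.filter fun x => f x = 1).card ≤ 8 * (a * 2 ^ a + 1) ^ 2 * (a + 1) + 2 := by
  classical
  by_contra hcon
  push Not at hcon
  set t := (a * 2 ^ a + 1) with ht
  have htpos : 1 ≤ t := Nat.le_add_left 1 _
  obtain ⟨B, β, hBX, hBcard, hβ, hXβ⟩ := exists_basis_data X
  set R := B.card with hR
  have hdens : X.card ≤ t * R := by
    have := density a R ha (Fin n → ZMod 2) X h0 hW (by rw [hBcard])
    exact this
  -- the number of elements is large
  have hXcard : 8 * t ^ 2 * (a + 1) + 3 ≤ X.card := by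
    obtain ⟨x, hx⟩ := hX
    have hx0 : x ≠ 0 := fun h => h0 (h ▸ hx)
    obtain ⟨b, hb, hbx⟩ : ∃ b ∈ B, β b x ≠ 0 := by
      by_contra hc
      push Not at hc
      apply hx0
      rw [hXβ x hx]
      refine Finset.sum_eq_zero fun b hb => ?_
      rw [hc b hb, zero_smul]
    have h1 : (X.filter fun y => β b y = 1).Nonempty :=
      ⟨x, Finset.mem_filter.2 ⟨hx, (zmod_cases _).resolve_left hbx⟩⟩
    have h2 := hcon (β b) h1
    have h3 := Finset.card_filter_le X (fun y => β b y = 1)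
    omega
  have hRt : t + 1 ≤ R := by
    by_contra hc
    have h1 : R ≤ t := by omega
    have h2 : t * R ≤ t * t := Nat.mul_le_mul_left _ h1
    have h3 : t * t ≤ 8 * t ^ 2 * (a + 1) := by
      calc t * t = t ^ 2 * 1 := by ring
        _ ≤ t ^ 2 * (8 * (a + 1)) := Nat.mul_le_mul_left _ (by omega)
        _ = _ := by ring
    omega
  set N := X \ B with hN
  have hNX : N ⊆ X := Finset.sdiff_subset
  have hBN : Disjoint B N := Finset.disjoint_sdiff
  have hNcard : N.card + R ≤ t * R := by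
    have := Finset.card_sdiff_add_card_eq_card hBX
    rw [← hN, ← hR] at this
    omega
  set T : (Fin n → ZMod 2) → Finset (Fin n → ZMod 2) := fun b => N.filter fun x => β b x = 1
    with hT
  set δ := 8 * t ^ 2 * (a + 1) + 1 with hδ
  have hsep : ∀ i ∈ B, ∀ j ∈ B, i ≠ j → δ ≤ (symmDiff (T i) (T j)).card := by
    intro i hi j hj hij
    have h1 : (X.filter fun x => (β i + β j) x = 1).Nonempty := by
      refine ⟨i, Finset.mem_filter.2 ⟨hBX hi, ?_⟩⟩
      rw [LinearMap.add_apply, hβ i hi i hi, hβ j hj i hi, if_pos rfl, if_neg (Ne.symm hij),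
        add_zero]
    have h2 := hcon (β i + β j) h1
    have h3 : (X.filter fun x => (β i + β j) x = 1) ⊆ symmDiff (T i) (T j) ∪ {i, j} := by
      intro x hx
      rw [Finset.mem_filter, LinearMap.add_apply] at hx
      rw [Finset.mem_union, Finset.mem_insert, Finset.mem_singleton]
      by_cases hxB : x ∈ B
      · right
        by_contra hc
        push Not at hc
        rw [hβ i hi x hxB, hβ j hj x hxB, if_neg (Ne.symm hc.1), if_neg (Ne.symm hc.2)] at hx
        simp at hx
      · left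
        have hxN : x ∈ N := Finset.mem_sdiff.2 ⟨hx.1, hxB⟩
        rw [Finset.mem_symmDiff]
        simp only [hT, Finset.mem_filter]
        rcases zmod_cases (β i x) with h4 | h4 <;> rcases zmod_cases (β j x) with h5 | h5
        · rw [h4, h5] at hx; simp at hx
        · right; exact ⟨⟨hxN, h5⟩, fun h => by rw [h4] at h; simp at h⟩
        · left; exact ⟨⟨hxN, h4⟩, fun h => by rw [h5] at h; simp at h⟩
        · exfalso
          rw [h4, h5] at hx
          exact absurd hx.2 (by decide)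
    have h4 := Finset.card_le_card h3
    have h5 := Finset.card_union_le (symmDiff (T i) (T j)) {i, j}
    have h6 := Finset.card_le_two (a := i) (b := j)
    omega
  have hgrow : ∀ A ⊆ N, (B.image fun i => T i ∩ A).card ≤ t * A.card + 1 := fun A hA =>
    traces ha hW hNX hBX hBN hA hβ hXβ
  have hd : ∀ S ⊆ N, (∀ U ⊆ S, ∃ i ∈ B, T i ∩ S = U) → S.card ≤ a + 1 := fun S hS hU =>
    shattered ha hW hNX hBX hBN hS hβ hXβ hU
  have hRN : R ≤ t * N.card + 1 := by
    have h1 := hgrow N (Finset.Subset.refl N)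
    rw [Finset.card_image_of_injOn] at h1
    · exact h1
    · intro i hi j hj hij
      by_contra hne
      have h2 := hsep i hi j hj hne
      simp only [hT] at hij
      rw [Finset.inter_eq_left.2 (Finset.filter_subset _ _),
        Finset.inter_eq_left.2 (Finset.filter_subset _ _)] at hij
      simp only [hT] at h2
      rw [hij, symmDiff_self] at h2
      simp at h2
  set s := (R - 2) / (2 * t) with hs
  have hsN : s ≤ N.card := by
    have h1 : 2 * t * s ≤ R - 2 := by rw [hs]; exact Nat.mul_div_le _ _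
    have h2 : t * (2 * s) ≤ t * N.card := by
      have : t * (2 * s) = 2 * t * s := by ring
      omega
    have h3 := Nat.le_of_mul_le_mul_left h2 htpos
    omega
  have hpack := packing B N T δ t (a + 1) s (fun i _ => Finset.filter_subset _ _) hsep hgrow hd hsN
  exact arith (d := a + 1) htpos (by omega) hRt hNcard hs hδ hpack

end

/-- `R = a + 1`: `8 t ^ 2 R + 2 < 2 R ^ 3 4 ^ R`. -/
theorem numeric (a : ℕ) (ha : 1 ≤ a) :
    8 * (a * 2 ^ a + 1) ^ 2 * (a + 1) + 2 < 2 ^ (2 * (a + 1) + 3 * Nat.clog 2 (a + 1) + 1) := by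
  have h1 : (a + 1) ^ 3 ≤ 2 ^ (3 * Nat.clog 2 (a + 1)) := by
    rw [mul_comm 3, pow_mul]
    exact Nat.pow_le_pow_left (Nat.le_pow_clog (by norm_num) _) 3
  have h2 : 2 ^ (2 * (a + 1) + 3 * Nat.clog 2 (a + 1) + 1) =
      8 * (2 ^ a) ^ 2 * 2 ^ (3 * Nat.clog 2 (a + 1)) := by
    rw [pow_add, pow_add, ← pow_mul]
    ring
  rw [h2]
  refine lt_of_lt_of_le ?_ (Nat.mul_le_mul_left _ h1)
  have h3 : 2 ≤ 2 ^ a := by
    calc 2 = 2 ^ 1 := (pow_one 2).symm
      _ ≤ 2 ^ a := Nat.pow_le_pow_right (by norm_num) ha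
  obtain ⟨q, hq⟩ : ∃ q, 2 ^ a = q + 2 := ⟨2 ^ a - 2, by omega⟩
  obtain ⟨b, rfl⟩ : ∃ b, a = b + 1 := ⟨a - 1, by omega⟩
  rw [hq]
  have h4 : ((b + 1) * (q + 2) + 1) ^ 2 + 1 ≤ ((b + 1 + 1) * (q + 2)) ^ 2 := by
    nlinarith [Nat.zero_le (b * q), Nat.zero_le (b * q * q), Nat.zero_le q, Nat.zero_le b,
      Nat.zero_le (q * q)]
  calc 8 * ((b + 1) * (q + 2) + 1) ^ 2 * (b + 1 + 1) + 2
      < 8 * (((b + 1) * (q + 2) + 1) ^ 2 + 1) * (b + 1 + 1) := by nlinarith
    _ ≤ 8 * (((b + 1 + 1) * (q + 2)) ^ 2) * (b + 1 + 1) :=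
        Nat.mul_le_mul_right _ (Nat.mul_le_mul_left _ h4)
    _ = 8 * (q + 2) ^ 2 * (b + 1 + 1) ^ 3 := by ring

end Pool.Agent.Lib.P68998e
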